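import Pool.Agent.W679.ST.Stm

/-! Points of the polar of the Steiner symmetral. -/

set_option autoImplicit false

open MeasureTheory Set
open scoped BigOperators ENNReal RealInnerProductSpace

namespace Pool.Agent.W563.ST.St2

open W679ST

lemma dot {m : ℕ} (x y : EuclideanSpace ℝ (Fin (m + 1))) :
    inner ℝ x y = x 0 * y 0 + ∑ i : Fin m, x i.succ * y i.succ := by
  rw [PiLp.inner_apply, Fin.sum_univ_succ]
  simp only [RCLike.inner_apply, conj_trivial]
  rw [mul_comm]
  congr 1
  exact Finset.sum_congr rfl fun i _ => mul_comm _ _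

lemma pair {m : ℕ} {η κ : ℝ} (hη : 0 < η) {x y : EuclideanSpace ℝ (Fin (m + 1))}
    (hx : x ∈ KK m η κ) (hy : y ∈ QQ m η κ) : inner ℝ x y ≤ (1 : ℝ) := by
  have hx' : |x 0| / η + ∑ i : Fin m, |x i.succ + κ * x 0 / η| ≤ 1 := hx
  obtain ⟨h1, h2⟩ := hy
  have e : inner ℝ x y = x 0 / η * (η * y 0 - κ * ∑ i : Fin m, y i.succ)
      + ∑ i : Fin m, (x i.succ + κ * x 0 / η) * y i.succ := by
    rw [dot]
    have : ∑ i : Fin m, (x i.succ + κ * x 0 / η) * y i.succ
        = ∑ i : Fin m, x i.succ * y i.succ + κ * x 0 / η * ∑ i : Fin m, y i.succ := by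
      rw [Finset.mul_sum, ← Finset.sum_add_distrib]
      exact Finset.sum_congr rfl fun i _ => by ring
    rw [this]
    field_simp
    ring
  rw [e]
  refine le_trans (add_le_add ?_ (Finset.sum_le_sum fun i _ => ?_)) hx'
  · calc x 0 / η * (η * y 0 - κ * ∑ i : Fin m, y i.succ)
        ≤ |x 0 / η * (η * y 0 - κ * ∑ i : Fin m, y i.succ)| := le_abs_self _
      _ = |x 0| / η * |η * y 0 - κ * ∑ i : Fin m, y i.succ| := by
          rw [abs_mul, abs_div, abs_of_pos hη]
      _ ≤ |x 0| / η * 1 := mul_le_mul_of_nonneg_left h2 (by positivity)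
      _ = |x 0| / η := mul_one _
  · calc (x i.succ + κ * x 0 / η) * y i.succ ≤ |(x i.succ + κ * x 0 / η) * y i.succ| :=
          le_abs_self _
      _ = |x i.succ + κ * x 0 / η| * |y i.succ| := abs_mul _ _
      _ ≤ |x i.succ + κ * x 0 / η| * 1 := mul_le_mul_of_nonneg_left (h1 i) (abs_nonneg _)
      _ = _ := mul_one _

lemma closedKK (m : ℕ) (η κ : ℝ) : IsClosed (KK m η κ) := by
  unfold KK
  refine isClosed_le ?_ continuous_const
  fun_prop

theorem main : S_ST2 := by
  intro m η κ u hη hκ hu hu0 hr z hz w hw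
  obtain ⟨q, s, hq, hrq, hs, hz0, hzi⟩ := hz
  set r : Fin m → ℝ := rr η κ u with hrdef
  set p : EuclideanSpace ℝ (Fin (m + 1)) := z - s • u with hp
  clear_value p
  have hp0 : p 0 = -(∑ i : Fin m, u i.succ * q i) / u 0 := by
    rw [hp]
    show z 0 - s * u 0 = _
    rw [hz0]; ring
  have hpi : ∀ i : Fin m, p i.succ = q i := by
    intro i
    rw [hp]
    show z i.succ - s * u i.succ = _
    rw [hzi i]; ring
  have hu0' : u 0 ≠ 0 := hu0.ne'
  have hη' : η ≠ 0 := hη.ne'
  have hpu : inner ℝ p u = (0 : ℝ) := by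
    rw [dot, hp0]
    simp_rw [hpi]
    rw [div_mul_cancel₀ _ hu0', neg_add_eq_sub, sub_eq_zero]
    exact Finset.sum_congr rfl fun i _ => mul_comm _ _
  have hrq2 : η * p 0 - κ * ∑ i : Fin m, q i = -∑ i, r i * q i := by
    rw [hp0]
    have : ∑ i, r i * q i = κ * ∑ i : Fin m, q i + η * (∑ i : Fin m, u i.succ * q i) / u 0 := by
      rw [hrdef]
      unfold rr
      rw [Finset.mul_sum, Finset.mul_sum, Finset.sum_div, ← Finset.sum_add_distrib]
      exact Finset.sum_congr rfl fun i _ => by ring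
    rw [this]
    ring
  set σ : ℝ := 1 - |∑ i, r i * q i| with hσ
  have hσ0 : 0 ≤ σ := by rw [hσ]; linarith
  set T : ℝ := ∑ i, r i * (1 - |q i|) with hT
  set S : ℝ := u 0 / η * σ + u 0 / η * T with hS
  have hsS : |s| ≤ S := by
    have : 0 ≤ u 0 / η * σ := by positivity
    rw [hS]; linarith
  obtain ⟨lam, hl0, hl1, hlS⟩ : ∃ lam : ℝ, 0 ≤ lam ∧ lam ≤ 1 ∧ lam * S = |s| := by
    rcases eq_or_lt_of_le (le_trans (abs_nonneg s) hsS) with h | h
    · refine ⟨0, le_refl _, zero_le_one, ?_⟩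
      rw [zero_mul]
      exact le_antisymm (abs_nonneg s) (h ▸ hsS)
    · exact ⟨|s| / S, by positivity, (div_le_one h).2 hsS, div_mul_cancel₀ _ h.ne'⟩
  set v : EuclideanSpace ℝ (Fin (m + 1)) := WithLp.toLp 2
    (Fin.cons ((lam * σ + κ * ∑ i : Fin m, lam * (1 - |q i|)) / η) fun i => lam * (1 - |q i|)) with hv
  have hv0 : v 0 = (lam * σ + κ * ∑ i : Fin m, lam * (1 - |q i|)) / η := by
    rw [hv]; simp
  have hvi : ∀ i : Fin m, v i.succ = lam * (1 - |q i|) := by
    intro i; rw [hv]; simp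
  have hvu : inner ℝ v u = |s| := by
    rw [dot, hv0]
    simp_rw [hvi]
    rw [← hlS, hS, hT]
    have : u 0 / η * ∑ i, r i * (1 - |q i|)
        = κ * u 0 / η * (∑ i : Fin m, (1 - |q i|)) + ∑ i : Fin m, (1 - |q i|) * u i.succ := by
      rw [Finset.mul_sum, Finset.mul_sum, ← Finset.sum_add_distrib]
      refine Finset.sum_congr rfl fun i _ => ?_
      rw [hrdef]
      unfold rr
      field_simp
    rw [this]
    simp_rw [mul_assoc lam, ← Finset.mul_sum]
    field_simp
    ring
  have hpv : p + v ∈ QQ m η κ := by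
    refine ⟨fun i => ?_, ?_⟩
    · show |p i.succ + v i.succ| ≤ 1
      rw [hpi, hvi]
      have h1 := hq i
      have h2 : |lam * (1 - |q i|)| ≤ 1 - |q i| := by
        rw [abs_of_nonneg (mul_nonneg hl0 (by linarith))]
        have : 0 ≤ 1 - |q i| := by linarith
        nlinarith
      linarith [abs_add_le (q i) (lam * (1 - |q i|))]
    · show |η * (p 0 + v 0) - κ * ∑ i : Fin m, (p i.succ + v i.succ)| ≤ 1
      simp_rw [hpi, hvi]
      have : η * (p 0 + v 0) - κ * ∑ i : Fin m, (q i + lam * (1 - |q i|))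
          = -∑ i, r i * q i + lam * σ := by
        rw [← hrq2, hv0, Finset.sum_add_distrib]
        field_simp
        ring
      rw [this]
      have h2 : |lam * σ| ≤ σ := by
        rw [abs_of_nonneg (mul_nonneg hl0 hσ0)]; nlinarith
      have h3 := abs_add_le (-∑ i, r i * q i) (lam * σ)
      rw [abs_neg] at h3
      linarith
  have hmv : p - v ∈ QQ m η κ := by
    refine ⟨fun i => ?_, ?_⟩
    · show |p i.succ - v i.succ| ≤ 1
      rw [hpi, hvi]
      have h1 := hq i
      have h2 : |lam * (1 - |q i|)| ≤ 1 - |q i| := by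
        rw [abs_of_nonneg (mul_nonneg hl0 (by linarith))]
        have : 0 ≤ 1 - |q i| := by linarith
        nlinarith
      linarith [abs_sub (q i) (lam * (1 - |q i|))]
    · show |η * (p 0 - v 0) - κ * ∑ i : Fin m, (p i.succ - v i.succ)| ≤ 1
      simp_rw [hpi, hvi]
      have : η * (p 0 - v 0) - κ * ∑ i : Fin m, (q i - lam * (1 - |q i|))
          = -∑ i, r i * q i - lam * σ := by
        rw [← hrq2, hv0, Finset.sum_sub_distrib]
        field_simp
        ring
      rw [this]
      have h2 : |lam * σ| ≤ σ := by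
        rw [abs_of_nonneg (mul_nonneg hl0 hσ0)]; nlinarith
      have h3 := abs_sub (-∑ i, r i * q i) (lam * σ)
      rw [abs_neg] at h3
      linarith
  -- the chord
  obtain ⟨⟨s0, hs0⟩, hvol⟩ := hw
  set t : ℝ := inner ℝ w u with ht
  set x' : EuclideanSpace ℝ (Fin (m + 1)) := w - t • u with hx'
  set J : Set ℝ := {s : ℝ | x' + s • u ∈ KK m η κ} with hJ
  have hJc : IsClosed J := (closedKK m η κ).preimage (by fun_prop)
  have hJb : J ⊆ Icc (-((η + |x' 0|) / u 0)) ((η + |x' 0|) / u 0) := by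
    intro c hc
    have h1 : |(x' + c • u) 0| / η + ∑ i : Fin m, |(x' + c • u) i.succ + κ * (x' + c • u) 0 / η| ≤ 1 :=
      hc
    have h2 : 0 ≤ ∑ i : Fin m, |(x' + c • u) i.succ + κ * (x' + c • u) 0 / η| :=
      Finset.sum_nonneg fun i _ => abs_nonneg _
    have h3 : |(x' + c • u) 0| / η ≤ 1 := by linarith
    rw [div_le_one hη] at h3
    have h4 : (x' + c • u) 0 = x' 0 + c * u 0 := rfl
    rw [h4] at h3
    have h5 : |c * u 0| ≤ η + |x' 0| := by
      have := abs_sub (x' 0 + c * u 0) (x' 0)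
      rw [add_sub_cancel_left] at this
      linarith
    rw [abs_mul, abs_of_pos hu0, ← le_div_iff₀ hu0] at h5
    exact abs_le.1 h5
  have hJk : IsCompact J := isCompact_Icc.of_isClosed_subset hJc hJb
  have hJn : J.Nonempty := ⟨s0, hs0⟩
  have m1 : sInf J ∈ J := hJk.sInf_mem hJn
  have m2 : sSup J ∈ J := hJk.sSup_mem hJn
  have hle : sInf J ≤ sSup J := csInf_le_csSup hJn hJk.bddBelow hJk.bddAbove
  have hlen : 2 * |t| ≤ sSup J - sInf J := by
    have h1 : volume J ≤ ENNReal.ofReal (sSup J - sInf J) := by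
      rw [← Real.volume_Icc]
      exact measure_mono fun c hc => ⟨csInf_le hJk.bddBelow hc, le_csSup hJk.bddAbove hc⟩
    have h2 := hvol.trans h1
    exact (ENNReal.ofReal_le_ofReal_iff (by linarith)).1 h2
  clear_value x'
  have k1 := pair hη m2 hpv
  have k2 := pair hη m1 hmv
  have huu : inner ℝ u u = (1 : ℝ) := by
    rw [real_inner_self_eq_norm_sq, hu]; norm_num
  have hx'u : inner ℝ x' u = (0 : ℝ) := by
    rw [hx', inner_sub_left, real_inner_smul_left, huu, ← ht]; ring
  have hup : inner ℝ u p = (0 : ℝ) := by rw [real_inner_comm]; exact hpu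
  have huv : inner ℝ u v = |s| := by rw [real_inner_comm]; exact hvu
  rw [inner_add_left, inner_add_right, inner_add_right, real_inner_smul_left, real_inner_smul_left,
    hup, huv] at k1
  rw [inner_add_left, inner_sub_right, inner_sub_right, real_inner_smul_left, real_inner_smul_left,
    hup, huv] at k2
  have hwz : inner ℝ w z = inner ℝ x' p + t * s := by
    have e1 : w = x' + t • u := by rw [hx']; abel
    have e2 : z = p + s • u := by rw [hp]; abel
    rw [e1, e2, inner_add_left, inner_add_right, inner_add_right, real_inner_smul_left,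
      real_inner_smul_left, real_inner_smul_right, real_inner_smul_right, hx'u, hup, huu]
    ring
  rw [hwz]
  have h6 : t * s ≤ |t| * |s| := by rw [← abs_mul]; exact le_abs_self _
  have h7 : 2 * |t| * |s| ≤ (sSup J - sInf J) * |s| :=
    mul_le_mul_of_nonneg_right hlen (abs_nonneg s)
  nlinarith

end Pool.Agent.W563.ST.St2
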