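import Pool.Agent.W679.ST.Stm

/-! Integrals over the cube. -/

set_option autoImplicit false

open MeasureTheory Set
open scoped BigOperators ENNReal

namespace Pool.Agent.W563.ST.St4

open W679ST

/-- Lebesgue measure on `[-1, 1]` -/
noncomputable abbrev mu : Measure ℝ := volume.restrict (Icc (-1 : ℝ) 1)

/-- Lebesgue measure on the cube -/
noncomputable abbrev nu (m : ℕ) : Measure (Fin m → ℝ) := Measure.pi fun _ => mu

lemma int_of (f : ℝ → ℝ) : ∫ t, f t ∂mu = ∫ t in (-1 : ℝ)..1, f t := by
  rw [intervalIntegral.integral_of_le (by norm_num), integral_Icc_eq_integral_Ioc]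

lemma int_one : ∫ _t, (1 : ℝ) ∂mu = 2 := by
  rw [int_of, intervalIntegral.integral_const]; norm_num

lemma int_id : ∫ t, t ∂mu = 0 := by
  rw [int_of, integral_id]; norm_num

lemma int_sq : ∫ t, t * t ∂mu = 2 / 3 := by
  rw [int_of]
  have : (fun t : ℝ => t * t) = fun t => t ^ 2 := by funext t; ring
  rw [this, integral_pow]; norm_num

lemma int_abs : ∫ t, (1 - |t|) ∂mu = 1 := by
  rw [int_of]
  have h1 : IntervalIntegrable (fun t : ℝ => 1 - |t|) volume (-1) 0 :=
    (Continuous.intervalIntegrable (by fun_prop) _ _)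
  have h2 : IntervalIntegrable (fun t : ℝ => 1 - |t|) volume 0 1 :=
    (Continuous.intervalIntegrable (by fun_prop) _ _)
  rw [← intervalIntegral.integral_add_adjacent_intervals h1 h2]
  have e1 : ∫ t in (-1 : ℝ)..0, (1 - |t|) = ∫ t in (-1 : ℝ)..0, (1 + t) := by
    refine intervalIntegral.integral_congr fun t ht => ?_
    rw [uIcc_of_le (by norm_num)] at ht
    show 1 - |t| = 1 + t
    rw [abs_of_nonpos ht.2]; ring
  have e2 : ∫ t in (0 : ℝ)..1, (1 - |t|) = ∫ t in (0 : ℝ)..1, (1 - t) := by
    refine intervalIntegral.integral_congr fun t ht => ?_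
    rw [uIcc_of_le (by norm_num)] at ht
    show 1 - |t| = 1 - t
    rw [abs_of_nonneg ht.1]
  rw [e1, e2, intervalIntegral.integral_add (by simp) (by simp),
    intervalIntegral.integral_sub (by simp) (by simp)]
  simp only [intervalIntegral.integral_const, integral_id]
  norm_num

lemma int_F (m : ℕ) (i : Fin m) : ∫ q, (1 - |q i|) ∂(nu m) = 2 ^ m * (1 / 2) := by
  classical
  have h : ∀ q : Fin m → ℝ, 1 - |q i| = ∏ k, (if k = i then 1 - |q k| else 1) := by
    intro q
    rw [Finset.prod_ite_eq' Finset.univ i (fun k => 1 - |q k|)]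
    simp
  simp_rw [h]
  rw [integral_fintype_prod_eq_prod (𝕜 := ℝ) (fun (k : Fin m) (t : ℝ) => if k = i then 1 - |t| else 1)]
  have h2 : ∀ k : Fin m, ∫ t, (if k = i then 1 - |t| else (1 : ℝ)) ∂mu
      = 2 * (if k = i then 1 / 2 else 1) := by
    intro k
    by_cases c : k = i
    · simp only [if_pos c]; rw [int_abs]; norm_num
    · simp only [if_neg c]; rw [int_one]; norm_num
  simp_rw [h2]
  rw [Finset.prod_mul_distrib, Finset.prod_const, Finset.card_univ, Fintype.card_fin,
    Finset.prod_ite_eq' Finset.univ i (fun _ => (1 / 2 : ℝ))]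
  simp

lemma int_qq (m : ℕ) (i j : Fin m) :
    ∫ q, (q i * q j) ∂(nu m) = if i = j then 2 ^ m * (1 / 3) else 0 := by
  classical
  have h : ∀ q : Fin m → ℝ, q i * q j
      = ∏ k, ((if k = i then q k else 1) * (if k = j then q k else 1)) := by
    intro q
    rw [Finset.prod_mul_distrib, Finset.prod_ite_eq' Finset.univ i (fun k => q k),
      Finset.prod_ite_eq' Finset.univ j (fun k => q k)]
    simp
  simp_rw [h]
  rw [integral_fintype_prod_eq_prod (𝕜 := ℝ)
    (fun (k : Fin m) (t : ℝ) => (if k = i then t else 1) * (if k = j then t else 1))]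
  by_cases c : i = j
  · subst c
    rw [if_pos rfl]
    have h2 : ∀ k : Fin m, ∫ t, ((if k = i then t else 1) * (if k = i then t else (1 : ℝ))) ∂mu
        = 2 * (if k = i then 1 / 3 else 1) := by
      intro k
      by_cases c : k = i
      · simp only [if_pos c]; rw [int_sq]; norm_num
      · simp only [if_neg c, mul_one]; rw [int_one]
    simp_rw [h2]
    rw [Finset.prod_mul_distrib, Finset.prod_const, Finset.card_univ, Fintype.card_fin,
      Finset.prod_ite_eq' Finset.univ i (fun _ => (1 / 3 : ℝ))]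
    simp
  · rw [if_neg c]
    refine Finset.prod_eq_zero (Finset.mem_univ i) ?_
    simp only [if_true, if_neg c, mul_one]
    exact int_id

lemma nu_eq (m : ℕ) : nu m = (volume : Measure (Fin m → ℝ)).restrict
    (Set.univ.pi fun _ => Icc (-1 : ℝ) 1) := by
  rw [volume_pi, Measure.restrict_pi_pi]

lemma integrable_of {m : ℕ} {f : (Fin m → ℝ) → ℝ} (hf : Continuous f) :
    Integrable f (nu m) := by
  rw [nu_eq]
  exact hf.continuousOn.integrableOn_compact (isCompact_univ_pi fun _ => isCompact_Icc)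

theorem main : S_ST4 := by
  classical
  intro m r hr hr2
  set R : ℝ := ∑ i, r i with hR
  have hR0 : 0 ≤ R := Finset.sum_nonneg fun i _ => hr i
  set F : (Fin m → ℝ) → ℝ := fun q => ∑ i, r i * (1 - |q i|) with hF
  set G : (Fin m → ℝ) → ℝ := fun q => F q - R * (∑ i, r i * q i) ^ 2 with hG
  have hFc : Continuous F := by rw [hF]; fun_prop
  have hGc : Continuous G := by rw [hG]; fun_prop
  set C : Set (Fin m → ℝ) := Set.univ.pi fun _ => Icc (-1 : ℝ) 1 with hC
  have hCmem : ∀ q : Fin m → ℝ, q ∈ C ↔ ∀ i, |q i| ≤ 1 := by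
    intro q
    rw [hC, Set.mem_univ_pi]
    exact forall_congr' fun i => by rw [mem_Icc, abs_le]
  have hCm : MeasurableSet C := MeasurableSet.univ_pi fun _ => measurableSet_Icc
  -- the integral of `G`
  have hI : ∫ q, G q ∂(nu m) = 2 ^ m * (R / 2 - R * (∑ i, r i ^ 2) / 3) := by
    have e1 : ∫ q, F q ∂(nu m) = 2 ^ m * (R / 2) := by
      rw [hF, integral_finsetSum _ (fun i _ => integrable_of (by fun_prop))]
      simp_rw [integral_const_mul, int_F]
      rw [← Finset.sum_mul]
      ring
    have e2 : ∫ q : Fin m → ℝ, (∑ i, r i * q i) ^ 2 ∂(nu m) = 2 ^ m * ((∑ i, r i ^ 2) / 3) := by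
      have : ∀ q : Fin m → ℝ, (∑ i, r i * q i) ^ 2 = ∑ i, ∑ j, (r i * r j) * (q i * q j) := by
        intro q
        rw [pow_two, Finset.sum_mul_sum]
        exact Finset.sum_congr rfl fun i _ => Finset.sum_congr rfl fun j _ => by ring
      simp_rw [this]
      rw [integral_finsetSum _ (fun i _ => integrable_of (by fun_prop))]
      have : ∀ i : Fin m, ∫ q : Fin m → ℝ, ∑ j, (r i * r j) * (q i * q j) ∂(nu m)
          = r i ^ 2 * (2 ^ m * (1 / 3)) := by
        intro i
        rw [integral_finsetSum _ (fun j _ => integrable_of (by fun_prop))]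
        simp_rw [integral_const_mul, int_qq]
        rw [Finset.sum_eq_single i]
        · rw [if_pos rfl]; ring
        · intro j _ hj
          rw [if_neg (fun h => hj h.symm), mul_zero]
        · intro h
          exact absurd (Finset.mem_univ i) h
      simp_rw [this]
      rw [← Finset.sum_mul]
      ring
    rw [hG, integral_sub (integrable_of hFc) (integrable_of (by fun_prop)), integral_const_mul,
      e1, e2]
    ring
  have hI2 : 2 ^ m * R / 6 ≤ ∫ q, G q ∂(nu m) := by
    rw [hI]
    have h1 : R * (∑ i, r i ^ 2) ≤ R := by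
      have := mul_le_mul_of_nonneg_left hr2 hR0
      linarith
    have h2 : (0 : ℝ) < 2 ^ m := by positivity
    have h3 : R / 6 ≤ R / 2 - R * (∑ i, r i ^ 2) / 3 := by linarith
    calc 2 ^ m * R / 6 = 2 ^ m * (R / 6) := by ring
      _ ≤ _ := mul_le_mul_of_nonneg_left h3 h2.le
  -- comparison
  have hSm : MeasurableSet {q : Fin m → ℝ | (∀ i, |q i| ≤ 1) ∧ |∑ i, r i * q i| ≤ 1} := by
    have h1 : {q : Fin m → ℝ | (∀ i, |q i| ≤ 1) ∧ |∑ i, r i * q i| ≤ 1}
        = C ∩ {q : Fin m → ℝ | |∑ i, r i * q i| ≤ 1} := by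
      ext q
      rw [mem_inter_iff, hCmem]
      rfl
    have h2 : Continuous fun q : Fin m → ℝ => |∑ i, r i * q i| := by fun_prop
    rw [h1]
    exact hCm.inter (measurableSet_le h2.measurable measurable_const)
  have hcmp : ∫⁻ q, ENNReal.ofReal (G q) ∂(nu m) ≤
      ∫⁻ q in {q : Fin m → ℝ | (∀ i, |q i| ≤ 1) ∧ |∑ i, r i * q i| ≤ 1},
        ENNReal.ofReal (F q) := by
    rw [nu_eq, ← lintegral_indicator hCm, ← lintegral_indicator hSm]
    refine lintegral_mono fun q => ?_
    by_cases hq : q ∈ C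
    · have hq' := (hCmem q).1 hq
      rw [indicator_of_mem hq]
      by_cases h1 : |∑ i, r i * q i| ≤ 1
      · rw [indicator_of_mem (show q ∈ {q : Fin m → ℝ | (∀ i, |q i| ≤ 1) ∧ |∑ i, r i * q i| ≤ 1}
          from ⟨hq', h1⟩)]
        refine ENNReal.ofReal_le_ofReal ?_
        have : 0 ≤ R * (∑ i, r i * q i) ^ 2 := mul_nonneg hR0 (sq_nonneg _)
        show F q - R * (∑ i, r i * q i) ^ 2 ≤ F q
        linarith
      · have hG0 : G q ≤ 0 := by
          push Not at h1
          have h2 : 1 ≤ (∑ i, r i * q i) ^ 2 := by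
            rw [← sq_abs]; nlinarith
          have h3 : F q ≤ R := by
            rw [hF, hR]
            refine Finset.sum_le_sum fun i _ => ?_
            have := hr i
            have := abs_nonneg (q i)
            nlinarith
          have h4 : R ≤ R * (∑ i, r i * q i) ^ 2 := by nlinarith
          show F q - R * (∑ i, r i * q i) ^ 2 ≤ 0
          linarith
        rw [ENNReal.ofReal_of_nonpos hG0]
        exact bot_le
    · rw [indicator_of_notMem hq]
      exact bot_le
  refine le_trans ?_ hcmp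
  have h5 : ENNReal.ofReal (∫ q, G q ∂(nu m)) ≤ ∫⁻ q, ENNReal.ofReal (G q) ∂(nu m) := by
    have hGi : Integrable G (nu m) := integrable_of hGc
    rw [integral_eq_lintegral_pos_part_sub_lintegral_neg_part hGi]
    refine (ENNReal.ofReal_le_ofReal (sub_le_self _ ENNReal.toReal_nonneg)).trans ?_
    exact ENNReal.ofReal_toReal_le
  exact (ENNReal.ofReal_le_ofReal hI2).trans h5

end Pool.Agent.W563.ST.St4
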